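import Pool.Agent.MTF.StmtsA

/-! MTF, module FLD (helper10). -/

set_option autoImplicit false

namespace Pool.Agent.MTF.H10

open Matrix

variable {K : Type} [Field K] {d : Type} [Fintype d] [DecidableEq d]

theorem core [CharZero K] (lev : d → ℕ) (w : ℕ) (G : Matrix d d K)
    (h1 : ∀ b a, lev b < lev a → G b a = 0)
    (h2 : ∀ b a, lev b = lev a → G b a = if b = a then (lev a : K) - w / 2 else 0)
    (S : Submodule K (Matrix d d K)) (hS : ∀ A ∈ S, G * A - A * G ∈ S)
    (hT : ∀ C : Matrix d d K, (∀ b a, lev b < lev a → C b a = 0) → C ∈ S) :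
    ∀ (j : ℕ) (X : Matrix d d K), (∀ b a, lev b + j < lev a → X b a = 0) →
      G * X - X * G ∈ S → X ∈ S := by
  intro j
  induction j with
  | zero =>
    intro X hX _
    exact hT X (fun b a h => hX b a (by simpa using h))
  | succ j ih =>
    intro X hX hGX
    -- the matrix `X' = [G, X] + (j + 1) X`
    have hX' : (G * X - X * G) + ((j : K) + 1) • X ∈ S := by
      refine ih _ ?_ ?_
      · intro b a hba
        have e1 : (G * X) b a = ((lev b : K) - w / 2) * X b a := by
          rw [Matrix.mul_apply, Finset.sum_eq_single b]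
          · rw [h2 b b rfl, if_pos rfl]
          · intro c _ hcb
            rcases lt_trichotomy (lev b) (lev c) with h | h | h
            · rw [h1 b c h, zero_mul]
            · rw [h2 b c h, if_neg (fun hh => hcb hh.symm), zero_mul]
            · rw [hX c a (by omega), mul_zero]
          · intro h
            exact absurd (Finset.mem_univ _) h
        have e2 : (X * G) b a = X b a * ((lev a : K) - w / 2) := by
          rw [Matrix.mul_apply, Finset.sum_eq_single a]
          · rw [h2 a a rfl, if_pos rfl]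
          · intro c _ hca
            rcases lt_trichotomy (lev c) (lev a) with h | h | h
            · rw [h1 c a h, mul_zero]
            · rw [h2 c a h, if_neg hca, mul_zero]
            · rw [hX b c (by omega), zero_mul]
          · intro h
            exact absurd (Finset.mem_univ _) h
        rw [Matrix.add_apply, Matrix.sub_apply, e1, e2, Matrix.smul_apply, smul_eq_mul]
        by_cases hlt : lev b + (j + 1) < lev a
        · rw [hX b a hlt]
          ring
        · have heq : lev a = lev b + j + 1 := by omega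
          rw [heq]
          push_cast
          ring
      · have e : G * (G * X - X * G + ((j : K) + 1) • X) -
            (G * X - X * G + ((j : K) + 1) • X) * G =
            (G * (G * X - X * G) - (G * X - X * G) * G) +
              ((j : K) + 1) • (G * X - X * G) := by
          rw [mul_add, add_mul, mul_smul_comm, smul_mul_assoc, smul_sub]
          abel
        rw [e]
        exact S.add_mem (hS _ hGX) (S.smul_mem _ hGX)
    have h3 : ((j : K) + 1) • X ∈ S := by
      have h4 := S.sub_mem hX' hGX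
      rwa [add_sub_cancel_left] at h4
    have h5 : ((j : K) + 1) ≠ 0 := by exact_mod_cast Nat.succ_ne_zero j
    have h6 := S.smul_mem ((j : K) + 1)⁻¹ h3
    rwa [smul_smul, inv_mul_cancel₀ h5, one_smul] at h6

omit [DecidableEq d] in
theorem map_mul_der {k : Subfield K} (D : Derivation k K K) (A B : Matrix d d K) :
    (A * B).map D = A.map D * B + A * B.map D := by
  ext i j
  simp only [Matrix.map_apply, Matrix.mul_apply, Matrix.add_apply, map_sum, Derivation.leibniz,
    smul_eq_mul]
  rw [← Finset.sum_add_distrib]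
  refine Finset.sum_congr rfl (fun x _ => ?_)
  ring

theorem fld : FldStmt := by
  intro K _ _ k d _ _ lev w D Q Z G hQ hDQ h1 h2 N Y h hY hH hbr
  set H : Matrix d d K := Q * G * Q⁻¹ with hHdef
  set M : Submodule K (Matrix d d K) := Submodule.span K (Set.range Y) with hM
  have hQQ : Q * Q⁻¹ = 1 := Matrix.mul_nonsing_inv Q hQ
  have hQQ' : Q⁻¹ * Q = 1 := Matrix.nonsing_inv_mul Q hQ
  -- `M` is stable under `ad H`
  have hMad : ∀ A ∈ M, H * A - A * H ∈ M := by
    intro A hA
    induction hA using Submodule.span_induction with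
    | mem x hx =>
      obtain ⟨i, rfl⟩ := hx
      exact hbr i
    | zero => simp
    | add x y _ _ hx hy =>
      have e : H * (x + y) - (x + y) * H = (H * x - x * H) + (H * y - y * H) := by
        rw [mul_add, add_mul]; abel
      rw [e]; exact M.add_mem hx hy
    | smul c x _ hx =>
      have e : H * (c • x) - (c • x) * H = c • (H * x - x * H) := by
        rw [mul_smul_comm, smul_mul_assoc, smul_sub]
      rw [e]; exact M.smul_mem _ hx
  -- the conjugation
  let φ : Matrix d d K →ₗ[K] Matrix d d K :=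
    (LinearMap.mulLeft K Q) ∘ₗ (LinearMap.mulRight K Q⁻¹)
  have hφ : ∀ C, φ C = Q * C * Q⁻¹ := by
    intro C
    simp [φ, mul_assoc]
  let T : Submodule K (Matrix d d K) :=
    { carrier := {C | ∀ b a, lev b < lev a → C b a = 0}
      zero_mem' := fun b a _ => rfl
      add_mem' := fun {x y} hx hy b a hba => by
        rw [Matrix.add_apply, hx b a hba, hy b a hba, add_zero]
      smul_mem' := fun c x hx b a hba => by
        rw [Matrix.smul_apply, hx b a hba, smul_zero] }
  have hTm : ∀ C, C ∈ T ↔ ∀ b a, lev b < lev a → C b a = 0 := fun C => Iff.rfl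
  have hTmul : ∀ A ∈ T, ∀ B ∈ T, A * B ∈ T := by
    intro A hA B hB b a hba
    rw [Matrix.mul_apply]
    refine Finset.sum_eq_zero (fun c _ => ?_)
    by_cases hc : lev b < lev c
    · rw [hA b c hc, zero_mul]
    · rw [hB c a (by omega), mul_zero]
  have hGT : G ∈ T := h1
  set S : Submodule K (Matrix d d K) := M.comap φ ⊔ T with hSdef
  have hS : ∀ A ∈ S, G * A - A * G ∈ S := by
    intro A hA
    obtain ⟨A1, hA1, A2, hA2, rfl⟩ := Submodule.mem_sup.mp hA
    have e : G * (A1 + A2) - (A1 + A2) * G = (G * A1 - A1 * G) + (G * A2 - A2 * G) := by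
      rw [mul_add, add_mul]; abel
    rw [e]
    refine Submodule.add_mem_sup ?_ (T.sub_mem (hTmul _ hGT _ hA2) (hTmul _ hA2 _ hGT))
    rw [Submodule.mem_comap] at hA1 ⊢
    have e2 : φ (G * A1 - A1 * G) = H * φ A1 - φ A1 * H := by
      rw [hφ, hφ, hHdef]
      have l1 : Q * G * Q⁻¹ * (Q * A1 * Q⁻¹) = Q * (G * A1) * Q⁻¹ := by
        calc Q * G * Q⁻¹ * (Q * A1 * Q⁻¹) = Q * G * (Q⁻¹ * Q) * A1 * Q⁻¹ := by
              simp only [mul_assoc]
          _ = Q * (G * A1) * Q⁻¹ := by rw [hQQ', mul_one]; simp only [mul_assoc]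
      have l2 : Q * A1 * Q⁻¹ * (Q * G * Q⁻¹) = Q * (A1 * G) * Q⁻¹ := by
        calc Q * A1 * Q⁻¹ * (Q * G * Q⁻¹) = Q * A1 * (Q⁻¹ * Q) * G * Q⁻¹ := by
              simp only [mul_assoc]
          _ = Q * (A1 * G) * Q⁻¹ := by rw [hQQ', mul_one]; simp only [mul_assoc]
      rw [l1, l2, mul_sub, sub_mul]
    rw [e2]
    exact hMad _ hA1
  have hT : ∀ C : Matrix d d K, (∀ b a, lev b < lev a → C b a = 0) → C ∈ S :=
    fun C hC => Submodule.mem_sup_right hC
  -- the derivative of `H`
  have hDH : H.map D = Z * H + Q * G.map D * Q⁻¹ - H * Z := by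
    have e1 : H * Q = Q * G := by rw [hHdef, mul_assoc, hQQ', mul_one]
    have e2 := congrArg (fun A : Matrix d d K => A.map D) e1
    simp only [map_mul_der, hDQ] at e2
    have e3 : H.map D * Q = Z * Q * G + Q * G.map D - H * (Z * Q) := by
      rw [← e2]; abel
    calc H.map D = H.map D * Q * Q⁻¹ := by rw [mul_assoc, hQQ, mul_one]
      _ = (Z * Q * G + Q * G.map D - H * (Z * Q)) * Q⁻¹ := by rw [e3]
      _ = Z * (Q * G * Q⁻¹) + Q * G.map D * Q⁻¹ - H * Z * (Q * Q⁻¹) := by
          rw [sub_mul, add_mul]; simp only [mul_assoc]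
      _ = Z * H + Q * G.map D * Q⁻¹ - H * Z := by rw [hQQ, mul_one, ← hHdef]
  have hDHM : H.map D ∈ M := by
    have e : H.map D = ∑ i, D (h i) • Y i := by
      rw [hH]
      ext a b
      simp only [Matrix.map_apply, Matrix.sum_apply, Matrix.smul_apply, smul_eq_mul, map_sum,
        Derivation.leibniz]
      refine Finset.sum_congr rfl (fun i _ => ?_)
      have h0 : D (Y i a b) = 0 := by
        have := D.map_algebraMap (⟨Y i a b, hY i a b⟩ : k)
        exact this
      rw [h0, mul_zero, zero_add, mul_comm]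
    rw [e]
    exact M.sum_mem (fun i _ => M.smul_mem _ (Submodule.subset_span ⟨i, rfl⟩))
  -- the main lemma
  have hX : Q⁻¹ * Z * Q ∈ S := by
    have hbound : ∃ J, ∀ a, lev a ≤ J := by
      refine ⟨∑ a, lev a, fun a => ?_⟩
      exact Finset.single_le_sum (f := lev) (fun _ _ => Nat.zero_le _) (Finset.mem_univ a)
    obtain ⟨J, hJ⟩ := hbound
    refine core lev w G h1 h2 S hS hT J _ (fun b a hba => ?_) ?_
    · have := hJ a
      omega
    · have e : G * (Q⁻¹ * Z * Q) - Q⁻¹ * Z * Q * G = G.map D - Q⁻¹ * H.map D * Q := by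
        rw [hDH, mul_sub, mul_add, sub_mul, add_mul]
        have l1 : Q⁻¹ * (Z * H) * Q = Q⁻¹ * Z * Q * G := by
          calc Q⁻¹ * (Z * H) * Q = Q⁻¹ * Z * Q * G * (Q⁻¹ * Q) := by
                rw [hHdef]; simp only [mul_assoc]
            _ = _ := by rw [hQQ', mul_one]
        have l2 : Q⁻¹ * (Q * G.map D * Q⁻¹) * Q = G.map D := by
          calc Q⁻¹ * (Q * G.map D * Q⁻¹) * Q = (Q⁻¹ * Q) * G.map D * (Q⁻¹ * Q) := by
                simp only [mul_assoc]
            _ = _ := by rw [hQQ', mul_one, one_mul]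
        have l3 : Q⁻¹ * (H * Z) * Q = G * (Q⁻¹ * Z * Q) := by
          calc Q⁻¹ * (H * Z) * Q = (Q⁻¹ * Q) * G * (Q⁻¹ * Z * Q) := by
                rw [hHdef]; simp only [mul_assoc]
            _ = _ := by rw [hQQ', one_mul]
        rw [l1, l2, l3]
        abel
      rw [e]
      refine S.sub_mem (hT _ (fun b a hba => ?_)) (Submodule.mem_sup_left ?_)
      · rw [Matrix.map_apply, h1 b a hba, map_zero]
      · rw [Submodule.mem_comap, hφ]
        have e2 : Q * (Q⁻¹ * H.map D * Q) * Q⁻¹ = H.map D := by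
          calc Q * (Q⁻¹ * H.map D * Q) * Q⁻¹ = (Q * Q⁻¹) * H.map D * (Q * Q⁻¹) := by
                simp only [mul_assoc]
            _ = _ := by rw [hQQ, mul_one, one_mul]
        rw [e2]
        exact hDHM
  obtain ⟨A1, hA1, C, hC, hsum⟩ := Submodule.mem_sup.mp hX
  rw [Submodule.mem_comap, hφ] at hA1
  obtain ⟨μ, hμ⟩ := (Submodule.mem_span_range_iff_exists_fun K).mp hA1
  refine ⟨μ, C, hC, ?_⟩
  rw [hμ]
  calc Z = (Q * Q⁻¹) * Z * (Q * Q⁻¹) := by rw [hQQ, mul_one, one_mul]
    _ = Q * (Q⁻¹ * Z * Q) * Q⁻¹ := by simp only [mul_assoc]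
    _ = Q * (A1 + C) * Q⁻¹ := by rw [hsum]
    _ = Q * A1 * Q⁻¹ + Q * C * Q⁻¹ := by rw [mul_add, add_mul]

end Pool.Agent.MTF.H10
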